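import Pool.Agent.Lib_MP_f45bc3.Sparse

/-!
# MP_f45bc3_nt: integers close to a power of two
-/

set_option autoImplicit false

namespace Pool.MP_f45bc3_nt

open Finset

/-- the complement of a binary expansion with few zeros is a sum of few powers of two -/
theorem compl_list (l : List ℕ) (hl : ∀ d ∈ l, d < 2) :
    Sp (l.count 0) (2 ^ l.length - 1 - ((Nat.ofDigits 2 l : ℕ) : ℤ)) := by
  induction l with
  | nil => simpa using Sp.zero
  | cons d l ih =>
    have ih' := ih fun e he => hl e (List.mem_cons_of_mem _ he)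
    have hd := hl d List.mem_cons_self
    have h2 := ih'.two_mul
    rw [List.length_cons, Nat.ofDigits_cons]
    rcases Nat.lt_or_ge d 1 with h | h
    · have hd0 : d = 0 := by omega
      subst hd0
      rw [List.count_cons_self]
      have h3 := h2.add (Sp.pow2 0)
      convert! h3 using 1
      push_cast
      ring
    · have hd1 : d = 1 := by omega
      subst hd1
      rw [List.count_cons_of_ne (by norm_num)]
      convert! h2 using 1
      push_cast
      ring

theorem compl_sp (m : ℕ) :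
    Sp ((Nat.digits 2 m).count 0) (2 ^ (Nat.digits 2 m).length - 1 - (m : ℤ)) := by
  have h := compl_list (Nat.digits 2 m) fun d hd => Nat.digits_lt_base (by norm_num) hd
  rwa [Nat.ofDigits_digits] at h

/-- the weights of the approximations -/
def ww (x : ℕ) : ℕ → ℕ
  | 0 => 0
  | i + 1 => ww x i * ww x i + (x + 1)

/-- the errors of the approximations -/
def WW (x : ℕ) : ℕ → ℕ
  | 0 => 0
  | i + 1 => WW x i + ww x (i + 1)

theorem WW_mono (x : ℕ) : Monotone (WW x) := monotone_nat_of_le_succ fun _ => Nat.le_add_right _ _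

/-- the approximations of `k` -/
theorem approx (x M k J : ℕ) (hR : Sp (x + 1) ((k : ℤ) * 2 ^ (M + 1) - (k : ℤ) ^ 2))
    (hk : 4 * k ≤ 2 ^ M) (hW : WW x J ≤ k) (i : ℕ) (hi : i ≤ J) :
    ∃ y : ℤ, Sp (ww x i) y ∧
      (|(k : ℤ) - y| : ℝ) ≤ 2 ^ i * k * ((k : ℝ) / 2 ^ M) ^ i + WW x i := by
  induction i with
  | zero =>
    refine ⟨0, Sp.zero, ?_⟩
    simp [WW]
  | succ i ih =>
    obtain ⟨y, hy, hE⟩ := ih (by omega)
    have h1 : Sp (ww x (i + 1)) (y * y + ((k : ℤ) * 2 ^ (M + 1) - (k : ℤ) ^ 2)) := (hy.mul hy).add hR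
    obtain ⟨z, hz, hzE⟩ := h1.trunc (M + 1)
    refine ⟨z, hz, ?_⟩
    set κ : ℝ := (k : ℝ) / 2 ^ M with hκ
    have h2M : (0 : ℝ) < 2 ^ M := by positivity
    have hk0 : (0 : ℝ) ≤ k := Nat.cast_nonneg _
    have hκ0 : 0 ≤ κ := by positivity
    have hkM : (4 : ℝ) * k ≤ 2 ^ M := by exact_mod_cast hk
    have hκ4 : κ ≤ 1 / 4 := by
      rw [hκ, div_le_iff₀ h2M]
      linarith
    have hkκ : (k : ℝ) = κ * 2 ^ M := by
      rw [hκ]
      field_simp
    have hWi : (WW x i : ℝ) ≤ k := by exact_mod_cast (WW_mono x (by omega : i ≤ J)).trans hW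
    have hWi0 : (0 : ℝ) ≤ WW x i := Nat.cast_nonneg _
    have h2κ : (2 * κ) ^ i ≤ 1 := pow_le_one₀ (by positivity) (by linarith)
    have h2κ0 : 0 ≤ (2 * κ) ^ i := by positivity
    set E : ℝ := 2 ^ i * k * κ ^ i + WW x i with hEdef
    have hE' : E = k * (2 * κ) ^ i + WW x i := by
      rw [hEdef, mul_pow]
      ring
    have hE2 : E ≤ 2 * k := by
      rw [hE']
      nlinarith
    have hE0 : (|(k : ℤ) - y| : ℝ) ≤ E := hE
    have hzE' : (|((y * y + ((k : ℤ) * 2 ^ (M + 1) - (k : ℤ) ^ 2) - z * 2 ^ (M + 1) : ℤ) : ℝ)|) ≤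
        ww x (i + 1) * 2 ^ (M + 1) := by
      rw [← Int.cast_abs]
      exact_mod_cast hzE
    set d : ℝ := (k : ℝ) - y with hd
    have hdE : |d| ≤ E := by
      rw [hd]
      push_cast at hE0
      exact hE0
    have key : ((k : ℝ) - z) * 2 ^ (M + 1) = d * (2 * k - d) +
        ((y * y + ((k : ℤ) * 2 ^ (M + 1) - (k : ℤ) ^ 2) - z * 2 ^ (M + 1) : ℤ) : ℝ) := by
      rw [hd]
      push_cast
      ring
    have h3 : |d * (2 * k - d)| ≤ E * (4 * k) := by
      rw [abs_mul]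
      refine mul_le_mul hdE ?_ (abs_nonneg _) ((abs_nonneg _).trans hdE)
      have h4 : |2 * (k : ℝ) + -d| ≤ |2 * (k : ℝ)| + |-d| := abs_add_le _ _
      rw [abs_neg, abs_of_nonneg (by positivity : (0 : ℝ) ≤ 2 * (k : ℝ)), ← sub_eq_add_neg] at h4
      linarith
    have h5 : |(k : ℝ) - z| * 2 ^ (M + 1) ≤ E * (4 * k) + ww x (i + 1) * 2 ^ (M + 1) := by
      have h6 : |(k : ℝ) - z| * 2 ^ (M + 1) = |((k : ℝ) - z) * 2 ^ (M + 1)| := by
        rw [abs_mul, abs_of_pos (by positivity : (0 : ℝ) < 2 ^ (M + 1))]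
      rw [h6, key]
      exact (abs_add_le _ _).trans (add_le_add h3 hzE')
    have h7 : E * (4 * k) = (E * (2 * κ)) * 2 ^ (M + 1) := by
      rw [pow_succ]
      conv_lhs => rw [hkκ]
      ring
    rw [h7, ← add_mul] at h5
    have h8 : |(k : ℝ) - z| ≤ E * (2 * κ) + ww x (i + 1) :=
      le_of_mul_le_mul_right h5 (by positivity)
    have h9 : (WW x (i + 1) : ℝ) = WW x i + ww x (i + 1) := by
      show ((WW x i + ww x (i + 1) : ℕ) : ℝ) = _
      push_cast
      ring
    have h10 : E * (2 * κ) ≤ 2 ^ (i + 1) * k * κ ^ (i + 1) + WW x i := by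
      rw [hEdef]
      have h11 : (WW x i : ℝ) * (2 * κ) ≤ WW x i := by nlinarith
      have h12 : (2 ^ i * k * κ ^ i + WW x i) * (2 * κ) =
          2 ^ (i + 1) * k * κ ^ (i + 1) + WW x i * (2 * κ) := by ring
      rw [h12]
      linarith
    push_cast
    rw [h9]
    linarith

/-- `2 ^ M - k` with `k ^ J ≤ 2 ^ ((J - 1) M)` -/
theorem below (x J : ℕ) (hJ : 1 ≤ J) : ∃ M₀ : ℕ, ∀ M k : ℕ, M₀ ≤ M → 0 < k →
    k ^ J ≤ 2 ^ ((J - 1) * M) → x < zeros (2 ^ M - k) := by
  set r : ℕ := 1 + (ww x J + (2 ^ J + WW x J)) with hr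
  refine ⟨2 * J + 2 ^ r * (x + 2 * r + 3) + 2, fun M k hM hk hkJ => ?_⟩
  by_contra hcon
  push Not at hcon
  have hMJ : 2 * J + 2 ≤ M := by omega
  -- `k` is small
  have hk4 : 4 * k ≤ 2 ^ M := by
    by_contra h
    push Not at h
    have h1 : 2 ^ (M - 2) < k := by
      have h2 : 2 ^ M = 4 * 2 ^ (M - 2) := by
        have h3 : M = 2 + (M - 2) := by omega
        conv_lhs => rw [h3, pow_add]
        norm_num
      rw [h2] at h
      omega
    have h2 : 2 ^ ((M - 2) * J) < 2 ^ ((J - 1) * M) := by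
      rw [pow_mul]
      exact lt_of_lt_of_le (Nat.pow_lt_pow_left h1 (by omega)) hkJ
    have h3 := (Nat.pow_lt_pow_iff_right (by norm_num)).1 h2
    obtain ⟨J', rfl⟩ := Nat.exists_eq_succ_of_ne_zero (by omega : J ≠ 0)
    obtain ⟨M', rfl⟩ := Nat.exists_eq_add_of_le (by omega : 2 ≤ M)
    simp only [Nat.succ_eq_add_one, Nat.add_sub_cancel, Nat.add_sub_cancel_left] at h3
    nlinarith
  set n := 2 ^ M - k with hn
  have hkM : k ≤ 2 ^ M := by omega
  have hnM : n + k = 2 ^ M := by omega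
  have hn0 : 0 < n := by omega
  have h34 : 3 * 2 ^ M ≤ 4 * n := by omega
  -- the number of digits
  have hlt : n ^ 2 < 2 ^ (2 * M) := by
    rw [mul_comm, pow_mul]
    exact Nat.pow_lt_pow_left (by omega) (by norm_num)
  have hge : 2 ^ (2 * M - 1) ≤ n ^ 2 := by
    have h1 : 2 * 2 ^ (2 * M - 1) = (2 ^ M) ^ 2 := by
      rw [← pow_succ', ← pow_mul]
      congr 1
      omega
    nlinarith
  have hlen : (Nat.digits 2 (n ^ 2)).length = 2 * M := by
    refine le_antisymm ((Nat.digits_length_le_iff (by norm_num) _).2 hlt) ?_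
    by_contra h
    push Not at h
    have h1 : (Nat.digits 2 (n ^ 2)).length ≤ 2 * M - 1 := by omega
    have h2 := (Nat.digits_length_le_iff (by norm_num) _).1 h1
    omega
  have hR : Sp (x + 1) ((k : ℤ) * 2 ^ (M + 1) - (k : ℤ) ^ 2) := by
    have h1 := compl_sp (n ^ 2)
    rw [hlen] at h1
    have h2 := (h1.mono (w' := x) hcon).add (Sp.pow2 0)
    convert! h2 using 1
    have h3 : (n : ℤ) = 2 ^ M - k := by
      have : ((n + k : ℕ) : ℤ) = ((2 ^ M : ℕ) : ℤ) := by rw [hnM]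
      push_cast at this
      linarith
    push_cast
    rw [h3]
    ring
  -- `n` is sparse
  have hsp : Sp r (n : ℤ) := by
    have h3 : (n : ℤ) = 2 ^ M + -k := by
      have : ((n + k : ℕ) : ℤ) = ((2 ^ M : ℕ) : ℤ) := by rw [hnM]
      push_cast at this
      linarith
    rw [h3, hr]
    refine (Sp.pow2 M).add (Sp.neg ?_)
    rcases Nat.lt_or_ge k (WW x J) with h | h
    · exact (Sp.ofNat k).mono (h.le.trans ((Nat.le_add_left _ _).trans (Nat.le_add_left _ _)))
    · obtain ⟨y, hy, hE⟩ := approx x M k J hR hk4 h J le_rfl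
      have h4 : (2 : ℝ) ^ J * k * ((k : ℝ) / 2 ^ M) ^ J ≤ 2 ^ J := by
        have h5 : (k : ℝ) ^ J ≤ 2 ^ ((J - 1) * M) := by exact_mod_cast hkJ
        have h6 : (k : ℝ) ≤ 2 ^ M := by exact_mod_cast hkM
        have h7 : (k : ℝ) * ((k : ℝ) / 2 ^ M) ^ J ≤ 1 := by
          rw [div_pow, mul_div_assoc', div_le_one (by positivity)]
          calc (k : ℝ) * (k : ℝ) ^ J ≤ 2 ^ M * 2 ^ ((J - 1) * M) :=
                mul_le_mul h6 h5 (by positivity) (by positivity)
            _ = (2 ^ M) ^ J := by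
                rw [← pow_add, ← pow_mul]
                congr 1
                obtain ⟨J', rfl⟩ := Nat.exists_eq_succ_of_ne_zero (by omega : J ≠ 0)
                simp only [Nat.succ_eq_add_one, Nat.add_sub_cancel]
                ring
        have h8 : (0 : ℝ) ≤ 2 ^ J := by positivity
        calc (2 : ℝ) ^ J * k * ((k : ℝ) / 2 ^ M) ^ J = 2 ^ J * (k * ((k : ℝ) / 2 ^ M) ^ J) := by ring
          _ ≤ 2 ^ J * 1 := mul_le_mul_of_nonneg_left h7 h8
          _ = 2 ^ J := mul_one _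
      have h5 : |(k : ℤ) - y| ≤ ((2 ^ J + WW x J : ℕ) : ℤ) := by
        have h6 : ((|(k : ℤ) - y| : ℤ) : ℝ) ≤ (((2 ^ J + WW x J : ℕ) : ℤ) : ℝ) := by
          push_cast
          push_cast at hE
          linarith
        exact_mod_cast h6
      have h6 := hy.add (Sp.ofInt _ h5)
      rwa [add_sub_cancel] at h6
  have h1 := sparse_bound r n hn0 hsp
  have h2 : n ≤ 2 ^ (2 ^ r * (x + 2 * r + 3)) := by
    refine h1.trans (Nat.pow_le_pow_right (by norm_num) (Nat.mul_le_mul_left _ ?_))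
    omega
  have h3 : 2 ^ M ≤ 2 * n := by omega
  have h4 : 2 ^ M ≤ 2 ^ (2 ^ r * (x + 2 * r + 3) + 1) := by
    rw [pow_succ]
    omega
  have h5 := (Nat.pow_le_pow_iff_right (by norm_num)).1 h4
  omega

end Pool.MP_f45bc3_nt
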