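import Mathlib

/-!
# MP_f45bc3_nt: sums of boundedly many signed powers of two, and zero digits of squares
-/

set_option autoImplicit false

namespace Pool.MP_f45bc3_nt

open Finset

/-- The number of the binary digits of `n ^ 2` which are `0` (no leading zeros, trailing zeros counted). -/
def zeros (n : ℕ) : ℕ := (Nat.digits 2 (n ^ 2)).count 0

/-- `y` is a sum of `w` terms, each of which is `0` or `± 2 ^ e` for some `e ≥ 0`. -/
def Sp (w : ℕ) (y : ℤ) : Prop :=
  ∃ (s : Fin w → ℤ) (e : Fin w → ℕ), (∀ i, |s i| ≤ 1) ∧ y = ∑ i, s i * 2 ^ e i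

theorem Sp.zero : Sp 0 0 := ⟨fun _ => 0, fun _ => 0, fun i => i.elim0, by simp⟩

theorem Sp.pow2 (e : ℕ) : Sp 1 (2 ^ e) := ⟨fun _ => 1, fun _ => e, fun _ => by simp, by simp⟩

theorem Sp.neg {w : ℕ} {y : ℤ} (h : Sp w y) : Sp w (-y) := by
  obtain ⟨s, e, hs, rfl⟩ := h
  exact ⟨fun i => - s i, e, fun i => by rw [abs_neg]; exact hs i, by
    rw [← sum_neg_distrib]
    exact sum_congr rfl fun i _ => by ring⟩

theorem Sp.add {w w' : ℕ} {y y' : ℤ} (h : Sp w y) (h' : Sp w' y') : Sp (w + w') (y + y') := by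
  obtain ⟨s, e, hs, rfl⟩ := h
  obtain ⟨s', e', hs', rfl⟩ := h'
  refine ⟨Fin.append s s', Fin.append e e', fun i => ?_, ?_⟩
  · refine Fin.addCases (fun j => ?_) (fun j => ?_) i
    · rw [Fin.append_left]
      exact hs j
    · rw [Fin.append_right]
      exact hs' j
  · rw [Fin.sum_univ_add]
    simp only [Fin.append_left, Fin.append_right]

theorem Sp.mul {w w' : ℕ} {y y' : ℤ} (h : Sp w y) (h' : Sp w' y') : Sp (w * w') (y * y') := by
  obtain ⟨s, e, hs, rfl⟩ := h
  obtain ⟨s', e', hs', rfl⟩ := h'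
  refine ⟨fun t => s (finProdFinEquiv.symm t).1 * s' (finProdFinEquiv.symm t).2,
    fun t => e (finProdFinEquiv.symm t).1 + e' (finProdFinEquiv.symm t).2, fun t => ?_, ?_⟩
  · rw [abs_mul]
    exact mul_le_one₀ (hs _) (abs_nonneg _) (hs' _)
  · rw [sum_mul_sum, ← Fintype.sum_prod_type',
      ← Equiv.sum_comp finProdFinEquiv.symm
        (fun p : Fin w × Fin w' => s p.1 * 2 ^ e p.1 * (s' p.2 * 2 ^ e' p.2))]
    refine sum_congr rfl fun t _ => ?_
    rw [pow_add]
    ring

theorem Sp.mono {w w' : ℕ} {y : ℤ} (h : Sp w y) (hw : w ≤ w') : Sp w' y := by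
  obtain ⟨d, rfl⟩ := Nat.exists_eq_add_of_le hw
  have h0 : Sp d 0 := ⟨fun _ => 0, fun _ => 0, fun i => by simp, by simp⟩
  simpa using h.add h0

theorem Sp.two_mul {w : ℕ} {y : ℤ} (h : Sp w y) : Sp w (2 * y) := by
  have := (Sp.pow2 1).mul h
  simpa using this

theorem Sp.ofNat (m : ℕ) : Sp m (m : ℤ) := by
  induction m with
  | zero => exact Sp.zero
  | succ m ih =>
    have := ih.add (Sp.pow2 0)
    simpa using this

theorem Sp.ofInt (z : ℤ) {m : ℕ} (h : |z| ≤ m) : Sp m z := by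
  have h1 : (z.natAbs : ℤ) ≤ m := by rwa [Int.natCast_natAbs]
  have h2 : Sp z.natAbs z := by
    rcases Int.natAbs_eq z with h | h
    · rw [h, Int.natAbs_natCast]
      exact Sp.ofNat _
    · rw [h, Int.natAbs_neg, Int.natAbs_natCast]
      exact (Sp.ofNat _).neg
  exact h2.mono (by exact_mod_cast h1)

/-- bound of a partial sum with small exponents -/
theorem small_sum {w : ℕ} (s : Fin w → ℤ) (e : Fin w → ℕ) (hs : ∀ i, |s i| ≤ 1) (S : Finset (Fin w))
    (B : ℕ) (h : ∀ i ∈ S, e i ≤ B) : |∑ i ∈ S, s i * 2 ^ e i| ≤ w * 2 ^ B := by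
  refine (abs_sum_le_sum_abs _ _).trans ?_
  have h1 : ∀ i ∈ S, |s i * 2 ^ e i| ≤ 2 ^ B := by
    intro i hi
    rw [abs_mul, abs_pow, abs_two]
    calc |s i| * 2 ^ e i ≤ 1 * 2 ^ B :=
          mul_le_mul (hs i) (pow_le_pow_right₀ one_le_two (h i hi)) (by positivity) zero_le_one
      _ = 2 ^ B := one_mul _
  refine (sum_le_card_nsmul _ _ _ h1).trans ?_
  rw [nsmul_eq_mul]
  refine mul_le_mul_of_nonneg_right ?_ (by positivity)
  have h2 := card_le_univ S
  rw [Fintype.card_fin] at h2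
  exact_mod_cast h2

/-- cutting off the small exponents -/
theorem Sp.trunc {w : ℕ} {y : ℤ} (h : Sp w y) (K : ℕ) :
    ∃ y' : ℤ, Sp w y' ∧ |y - y' * 2 ^ K| ≤ w * 2 ^ K := by
  classical
  obtain ⟨s, e, hs, rfl⟩ := h
  refine ⟨∑ i, (if K ≤ e i then s i else 0) * 2 ^ (e i - K), ⟨_, _, fun i => ?_, rfl⟩, ?_⟩
  · split_ifs
    · exact hs i
    · simp
  · have h1 : (∑ i, (if K ≤ e i then s i else 0) * 2 ^ (e i - K)) * 2 ^ K =
        ∑ i ∈ univ.filter (fun i => K ≤ e i), s i * 2 ^ e i := by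
      rw [sum_mul, sum_filter]
      refine sum_congr rfl fun i _ => ?_
      split_ifs with h
      · rw [mul_assoc, ← pow_add, Nat.sub_add_cancel h]
      · simp
    rw [h1, ← sum_filter_add_sum_filter_not univ (fun i => K ≤ e i), add_sub_cancel_left]
    refine small_sum s e hs _ K fun i hi => ?_
    rw [mem_filter] at hi
    omega

/-- a block of zeros -/
theorem count_zero_ge {m s q K k : ℕ} (hs : s < 2 ^ k) (hkK : k ≤ K) (hq : 0 < q)
    (hm : m = s + 2 ^ K * q) : K - k ≤ (Nat.digits 2 m).count 0 := by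
  have h1 : (Nat.digits 2 s).length ≤ k := (Nat.digits_length_le_iff (by norm_num) s).2 hs
  have h2 := Nat.digits_append_zeroes_append_digits (b := 2) (k := K - (Nat.digits 2 s).length)
    (m := q) (n := s) (by norm_num) hq
  rw [Nat.add_sub_cancel' (h1.trans hkK), ← hm] at h2
  rw [← h2, List.count_append, List.count_append, List.count_replicate_self]
  omega

/-- The gap sequence. -/
def BB (c : ℕ) : ℕ → ℕ
  | 0 => 1
  | i + 1 => 2 * BB c i + c

theorem BB_eq (c i : ℕ) : BB c i + c = 2 ^ i * (c + 1) := by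
  induction i with
  | zero =>
    show 1 + c = _
    ring
  | succ i ih =>
    show 2 * BB c i + c + c = _
    rw [pow_succ]
    linarith

theorem BB_mono (c : ℕ) : Monotone (BB c) := monotone_nat_of_le_succ fun i => by
  show BB c i ≤ 2 * BB c i + c
  omega

/-- a sum of `w` signed powers of two whose square has few zeros is bounded -/
theorem sparse_bound (w n : ℕ) (hn : 0 < n) (h : Sp w (n : ℤ)) :
    n ≤ 2 ^ (2 ^ w * (zeros n + 2 * w + 3)) := by
  classical
  obtain ⟨s, e, hs, hsum⟩ := h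
  set a := zeros n with ha
  set c := 2 * w + a + 2 with hc
  -- an interval without exponents
  obtain ⟨i, hi⟩ : ∃ i : Fin (w + 1), ∀ t : Fin w, ¬ (BB c i ≤ e t ∧ e t < BB c (i + 1)) := by
    by_contra hcon
    push Not at hcon
    choose g hg using hcon
    have hinj : Function.Injective g := by
      intro i j hij
      have h1 := hg i
      have h2 := hg j
      rw [hij] at h1
      by_contra hne
      have hne' : (i : ℕ) ≠ j := fun h => hne (Fin.ext h)
      rcases Nat.lt_or_gt_of_ne hne' with h3 | h3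
      · have h4 := BB_mono c (Nat.succ_le_of_lt h3)
        have h5 : BB c ((i : ℕ) + 1) ≤ BB c (j : ℕ) := h4
        omega
      · have h4 := BB_mono c (Nat.succ_le_of_lt h3)
        have h5 : BB c ((j : ℕ) + 1) ≤ BB c (i : ℕ) := h4
        omega
    have h1 := Fintype.card_le_of_injective g hinj
    rw [Fintype.card_fin, Fintype.card_fin] at h1
    omega
  set B := BB c (i : ℕ) with hB
  set B' := BB c ((i : ℕ) + 1) with hB'
  have hBB' : B' = 2 * B + c := rfl
  have hBw : B + c ≤ 2 ^ w * (c + 1) := by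
    rw [hB, BB_eq]
    exact Nat.mul_le_mul_right _ (Nat.pow_le_pow_right (by norm_num) (by omega))
  -- splitting
  set c0 : ℤ := ∑ t ∈ univ.filter (fun t => ¬ B' ≤ e t), s t * 2 ^ e t with hc0
  have hc0le : |c0| ≤ 2 ^ (w + B) := by
    refine (small_sum s e hs _ B fun t ht => ?_).trans ?_
    · rw [mem_filter] at ht
      by_contra hcon
      exact hi t ⟨by omega, by omega⟩
    · rw [pow_add]
      refine mul_le_mul_of_nonneg_right ?_ (by positivity)
      exact_mod_cast (Nat.lt_two_pow_self (n := w)).le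
  obtain ⟨m, hm⟩ : ∃ m : ℤ, ∑ t ∈ univ.filter (fun t => B' ≤ e t), s t * 2 ^ e t = 2 ^ B' * m := by
    refine ⟨∑ t ∈ univ.filter (fun t => B' ≤ e t), s t * 2 ^ (e t - B'), ?_⟩
    rw [mul_sum]
    refine sum_congr rfl fun t ht => ?_
    rw [mem_filter] at ht
    rw [mul_left_comm, ← pow_add, Nat.add_sub_cancel' ht.2]
  have hnsplit : (n : ℤ) = c0 + 2 ^ B' * m := by
    rw [hsum, ← sum_filter_add_sum_filter_not univ (fun t => B' ≤ e t), hm, hc0]
    ring
  have hn' : (0 : ℤ) < n := by exact_mod_cast hn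
  have hc0' := abs_le.1 hc0le
  have hbig : (2 : ℤ) * 2 ^ (w + B) ≤ 2 ^ B' := by
    rw [← pow_succ']
    exact pow_le_pow_right₀ one_le_two (by omega)
  have hpos : (0 : ℤ) < 2 ^ (w + B) := by positivity
  rcases le_or_gt m 0 with hm0 | hm0
  · -- then `n` is small
    have h1 : (2 : ℤ) ^ B' * m ≤ 0 := mul_nonpos_of_nonneg_of_nonpos (by positivity) hm0
    have h2 : (n : ℤ) ≤ 2 ^ (w + B) := by linarith [hc0'.2]
    have h3 : n ≤ 2 ^ (w + B) := by exact_mod_cast h2
    refine h3.trans (Nat.pow_le_pow_right (by norm_num) ?_)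
    have h4 : c + 1 = a + 2 * w + 3 := by omega
    rw [h4] at hBw
    omega
  · exfalso
    have h1 : (2 : ℤ) ^ B' ≤ 2 ^ B' * m := le_mul_of_one_le_right (by positivity) hm0
    have hnc : |c0| < n := by
      have h2 : (2 : ℤ) ^ (w + B) < n := by
        rcases eq_or_lt_of_le hc0'.1 with h3 | h3
        · -- `c0 = - 2 ^ (w + B)`; still `n ≥ 2 ^ B' - 2 ^ (w + B)`
          have h4 : (4 : ℤ) * 2 ^ (w + B) ≤ 2 ^ B' := by
            have h5 : (4 : ℤ) * 2 ^ (w + B) = 2 ^ (w + B + 2) := by ring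
            rw [h5]
            exact pow_le_pow_right₀ one_le_two (by omega)
          linarith
        · linarith
      exact lt_of_le_of_lt hc0le h2
    set q : ℤ := c0 * m + 2 ^ (B' - 1) * m ^ 2 with hq
    have hB'1 : 1 ≤ B' := by omega
    have hpow : (2 : ℤ) ^ (B' + 1) * 2 ^ (B' - 1) = 2 ^ B' * 2 ^ B' := by
      rw [← pow_add, ← pow_add]
      congr 1
      omega
    have hsq : (n : ℤ) ^ 2 = c0 ^ 2 + 2 ^ (B' + 1) * q := by
      calc (n : ℤ) ^ 2 = c0 ^ 2 + 2 ^ (B' + 1) * (c0 * m) + (2 ^ B' * 2 ^ B') * m ^ 2 := by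
            rw [hnsplit]
            ring
        _ = _ := by
            rw [← hpow, hq]
            ring
    have hsqlt : c0 ^ 2 < (n : ℤ) ^ 2 := by
      rw [sq_lt_sq, abs_of_pos hn']
      exact hnc
    have hq0 : 0 < q := by
      have h2 : 0 < (2 : ℤ) ^ (B' + 1) * q := by linarith
      exact (mul_pos_iff_of_pos_left (by positivity)).1 h2
    have hc0sq : c0 ^ 2 < 2 ^ (2 * B + 2 * w + 1) := by
      calc c0 ^ 2 = |c0| ^ 2 := (sq_abs _).symm
        _ ≤ (2 ^ (w + B)) ^ 2 := pow_le_pow_left₀ (abs_nonneg _) hc0le 2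
        _ = 2 ^ (2 * B + 2 * w) := by
            rw [← pow_mul]
            congr 1
            ring
        _ < 2 ^ (2 * B + 2 * w + 1) := pow_lt_pow_right₀ one_lt_two (by omega)
    have h3 := count_zero_ge (m := n ^ 2) (s := (c0 ^ 2).toNat) (q := q.toNat) (K := B' + 1)
      (k := 2 * B + 2 * w + 1) (by
        have h4 : (((c0 ^ 2).toNat : ℕ) : ℤ) < ((2 ^ (2 * B + 2 * w + 1) : ℕ) : ℤ) := by
          rw [Int.toNat_of_nonneg (sq_nonneg _)]
          push_cast
          exact hc0sq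
        exact_mod_cast h4) (by omega) (by omega) (by
        have h4 : ((n ^ 2 : ℕ) : ℤ) = (((c0 ^ 2).toNat + 2 ^ (B' + 1) * q.toNat : ℕ) : ℤ) := by
          push_cast
          rw [Int.toNat_of_nonneg (sq_nonneg c0), Int.toNat_of_nonneg hq0.le]
          exact hsq
        exact_mod_cast h4)
    have h4 : (Nat.digits 2 (n ^ 2)).count 0 = a := by rw [ha, zeros]
    rw [h4] at h3
    omega

end Pool.MP_f45bc3_nt
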